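import Pool.Agent.Work.TMLib.Lib2
import Mathlib.Data.Nat.Size
import Mathlib.Tactic

/-!
Polynomial-time arithmetic with binary natural numbers: addition, and products of lists of (unary)
natural numbers.
-/

namespace Pool.Agent.Work.MP_013ca9_lc_F

open Turing Polynomial TMLib

set_option linter.unusedSimpArgs false

variable {α β γ δ : Type} [DE α] [DE β] [DE γ] [DE δ]

/-- A natural number, represented in binary. -/
structure BN where
  val : ℕ

instance : DE BN := ⟨fun n => de n.val.bits⟩

theorem de_BN (n : BN) : de n = de n.val.bits := rfl

theorem sz_BN (n : BN) : sz n = sz n.val.bits := rfl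

/-- Addition of two binary numbers with a carry. -/
def addB : Bool → List Bool → List Bool → List Bool
  | c, [], l => addc c l
  | c, b :: l', l => (xor (xor c b) (l.headD false)) ::
      addB ((c && b) || (c && l.headD false) || (b && l.headD false)) l' l.tail

theorem bits_headD (n : ℕ) : n.bits.headD false = n.bodd := by
  induction n using Nat.binaryRec' with
  | zero => simp
  | bit b n h _ => rw [Nat.bits_append_bit n b h]; simp

theorem bits_tail (n : ℕ) : n.bits.tail = n.div2.bits := by
  induction n using Nat.binaryRec' with
  | zero => simp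
  | bit b n h _ => rw [Nat.bits_append_bit n b h]; simp

theorem addc_bits' (c : Bool) (n : ℕ) : addc c n.bits = (n + c.toNat).bits := by
  cases c
  · simp
  · simp [addc_bits]

theorem addB_bits (m n : ℕ) (c : Bool) : addB c m.bits n.bits = (m + n + c.toNat).bits := by
  induction m using Nat.binaryRec' generalizing n c with
  | zero => simp [addB, addc_bits']
  | bit b m h ih =>
    rw [Nat.bits_append_bit m b h]
    simp only [addB, bits_headD, bits_tail, ih]
    conv_rhs => rw [← Nat.bit_bodd_div2 n]
    generalize n.bodd = y
    generalize n.div2 = k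
    have e : Nat.bit b m + Nat.bit y k + c.toNat = Nat.bit (xor (xor c b) y)
        (m + k + ((c && b) || (c && y) || (b && y)).toNat) := by
      cases b <;> cases y <;> cases c <;> simp [Nat.bit] <;> ring
    rw [e, Nat.bits_append_bit]
    intro h0
    have h1 : m = 0 := by omega
    have h2 := h h1
    subst h2
    cases y <;> cases c <;> simp at h0 ⊢

/-- One step of the addition loop: the state is (rest of the second number, carry, digits of the
result so far in reverse order). -/
def addStep (s : List Bool × Bool × List Bool) (b : Bool) : List Bool × Bool × List Bool :=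
  (s.1.tail, (s.2.1 && b) || (s.2.1 && s.1.headD false) || (b && s.1.headD false),
    (xor (xor s.2.1 b) (s.1.headD false)) :: s.2.2)

theorem addStep_fold (c : Bool) (l' l acc : List Bool) :
    (fun s : List Bool × Bool × List Bool => s.2.2.reverse ++ addc s.2.1 s.1)
      (l'.foldl addStep (l, c, acc)) = acc.reverse ++ addB c l' l := by
  induction l' generalizing c l acc with
  | nil => simp [addB]
  | cons b l' ih =>
    simp only [List.foldl_cons] at ih ⊢
    rw [show addStep (l, c, acc) b = (l.tail, (c && b) || (c && l.headD false) ||
      (b && l.headD false), (xor (xor c b) (l.headD false)) :: acc) from rfl, ih]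
    simp [addB]

theorem PolyF.addc' : PolyF (fun p : Bool × List Bool => addc p.1 p.2) := by
  have h : PolyF (fun p : Bool × List Bool => bif p.1 then addc true p.2 else p.2) := by
    have : PolyF (fun p : Bool × List Bool => addc true p.2) :=
      PolyF.comp (g := fun p : Bool × List Bool => p.2) PolyF.addc (by fun_prop)
    fun_prop
  refine h.congrF fun p => ?_
  rcases p with ⟨c, l⟩
  cases c <;> simp

theorem sz_tail_le (l : List β) : sz l.tail ≤ sz l := by
  cases l <;> simp; omega

theorem PolyF.addB' : PolyF (fun p : List Bool × List Bool => addB false p.1 p.2) := by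
  have hstep : PolyF (fun p : (List Bool × List Bool) × (List Bool × Bool × List Bool) × Bool =>
      addStep p.2.1 p.2.2) := by
    unfold addStep
    fun_prop
  have h : PolyF (fun p : List Bool × List Bool => p.1.foldl addStep (p.2, false, [])) := by
    refine PolyF.foldl_add (l := fun p : List Bool × List Bool => p.1)
      (g := fun p => (p.2, false, [])) (h := fun _ s b => addStep s b)
      (by fun_prop) (by fun_prop) hstep 8 ?_
    intro a s b _
    have h1 := sz_bool_le ((s.2.1 && b) || (s.2.1 && s.1.headD false) || (b && s.1.headD false))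
    have h2 := sz_bool_le (xor (xor s.2.1 b) (s.1.headD false))
    have h3 := sz_tail_le s.1
    have h4 := sz_pos s.2.1
    simp only [addStep, sz_pair, sz_cons, eval_ofNat]
    omega
  have h2 : PolyF (fun p : List Bool × List Bool =>
      (fun s : List Bool × Bool × List Bool => s.2.2.reverse ++ addc s.2.1 s.1)
      (p.1.foldl addStep (p.2, false, []))) := by
    refine PolyF.comp (f := fun s : List Bool × Bool × List Bool =>
      s.2.2.reverse ++ addc s.2.1 s.1) ?_ h
    have : PolyF (fun s : List Bool × Bool × List Bool => addc s.2.1 s.1) :=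
      PolyF.comp (g := fun s : List Bool × Bool × List Bool => (s.2.1, s.1)) PolyF.addc'
        (by fun_prop)
    fun_prop
  exact h2.congrF fun p => by simpa using addStep_fold false p.1 p.2 []

@[fun_prop]
theorem PolyF.bitsBN {f : α → BN} (hf : PolyF f) : PolyF (fun a => (f a).val.bits) := by
  refine PolyF.comp (f := fun n : BN => n.val.bits) ?_ hf
  exact PolyF.of_G (PolyG.refl _) fun n => rfl

theorem PolyF.ofBits {f : α → ℕ} (hf : PolyF (fun a => (f a).bits)) :
    PolyF (fun a => BN.mk (f a)) :=
  PolyF.of_G (PolyF.toG hf) fun a => rfl

@[fun_prop]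
theorem PolyF.addBN {f g : α → BN} (hf : PolyF f) (hg : PolyF g) :
    PolyF (fun a => BN.mk ((f a).val + (g a).val)) := by
  refine PolyF.ofBits ?_
  have h : PolyF (fun a => addB false (f a).val.bits (g a).val.bits) :=
    PolyF.comp (f := fun p : List Bool × List Bool => addB false p.1 p.2)
      (g := fun a => ((f a).val.bits, (g a).val.bits)) PolyF.addB' (by fun_prop)
  exact h.congrF fun a => by simp [addB_bits]

/-! ### Sizes -/

theorem sz_boolList_le (l : List Bool) : sz l ≤ 4 * l.length + 1 := by
  induction l with
  | nil => simp
  | cons b l ih =>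
    have := sz_bool_le b
    simp only [sz_cons, List.length_cons]
    omega

theorem length_bits (n : ℕ) : n.bits.length = n.size := Nat.size_eq_bits_len n

theorem sz_BN_le (n : ℕ) : sz (BN.mk n) ≤ 4 * n.size + 1 := by
  rw [sz_BN, ← length_bits]
  exact sz_boolList_le _

theorem size_le_sz (n : ℕ) : n.size ≤ sz (BN.mk n) := by
  rw [sz_BN, ← length_bits]
  exact (length_lt_sz _).le

theorem size_mul_le (m n : ℕ) : (m * n).size ≤ m.size + n.size := by
  rw [Nat.size_le, pow_add]
  rcases Nat.eq_zero_or_pos m with rfl | hm
  · simp
  rcases Nat.eq_zero_or_pos n with rfl | hn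
  · simp
  exact Nat.mul_lt_mul'' (Nat.lt_size_self m) (Nat.lt_size_self n)

theorem size_le_self (n : ℕ) : n.size ≤ n := by
  rw [Nat.size_le]
  exact Nat.lt_two_pow_self

/-- Multiplication of a binary number by a unary one. -/
@[fun_prop]
theorem PolyF.mulBN {f : α → BN} {g : α → ℕ} (hf : PolyF f) (hg : PolyF g) :
    PolyF (fun a => BN.mk ((f a).val * g a)) := by
  obtain ⟨qf, hqf⟩ := hf.size
  obtain ⟨qg, hqg⟩ := hg.size
  have hstep : PolyF (fun p : α × BN × Unit => BN.mk (p.2.1.val + (f p.1).val)) := by
    have : PolyF (fun p : α × BN × Unit => f p.1) :=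
      PolyF.comp (f := f) (g := fun p : α × BN × Unit => p.1) hf (by fun_prop)
    fun_prop
  have key : ∀ (m n : ℕ), (fun s : BN => BN.mk (s.val + m))^[n] (BN.mk 0) = BN.mk (m * n) := by
    intro m n
    induction n with
    | zero => simp
    | succ n ih => rw [Function.iterate_succ_apply', ih]; simp [Nat.mul_succ]
  refine (PolyF.foldl (l := fun a => TMLib.units (g a)) (g := fun _ => BN.mk 0)
    (h := fun a s _ => BN.mk (s.val + (f a).val)) (by fun_prop) (by fun_prop) hstep
    (4 * (qf + qg) + 1) ?_).congrF fun a => ?_
  · intro a j hj
    rw [show (TMLib.units (g a)).take j = TMLib.units j by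
      simp at hj
      simp [TMLib.units, List.take_replicate]
      omega]
    rw [foldl_units (fun s : BN => BN.mk (s.val + (f a).val)), key]
    refine (sz_BN_le _).trans ?_
    have h1 := size_mul_le (f a).val j
    have h2 : (f a).val.size ≤ qf.eval (sz a) := (size_le_sz _).trans (hqf a)
    have h3 := size_le_self j
    have h4 := hqg a
    simp only [sz_nat] at h4
    simp at hj
    simp only [eval_add, eval_mul, eval_ofNat, eval_one]
    omega
  · rw [foldl_units (fun s : BN => BN.mk (s.val + (f a).val)), key]

theorem sz_list_nat_ge (l : List ℕ) : l.sum + l.length ≤ sz l := by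
  induction l with
  | nil => simp
  | cons a l ih => simp; omega

theorem size_prod_le (l : List ℕ) : l.prod.size ≤ l.sum + 1 := by
  induction l with
  | nil => simp
  | cons a l ih =>
    have := size_mul_le a l.prod
    have := size_le_self a
    simp
    omega

/-- The product of a list of unary numbers, in binary. -/
@[fun_prop]
theorem PolyF.prodBN {f : α → List ℕ} (hf : PolyF f) : PolyF (fun a => BN.mk (f a).prod) := by
  obtain ⟨qf, hqf⟩ := hf.size
  have key : ∀ (l : List ℕ) (m : ℕ), l.foldl (fun (s : BN) b => BN.mk (s.val * b)) (BN.mk m) =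
      BN.mk (m * l.prod) := by
    intro l
    induction l with
    | nil => simp
    | cons b l ih => intro m; simp [ih, mul_assoc]
  refine (PolyF.foldl (l := f) (g := fun _ => BN.mk 1)
    (h := fun _ s b => BN.mk (s.val * b)) hf (by fun_prop) (by fun_prop)
    (4 * (qf + 1) + 1) ?_).congrF fun a => ?_
  · intro a j hj
    rw [key, one_mul]
    refine (sz_BN_le _).trans ?_
    have h1 := size_prod_le ((f a).take j)
    have h2 : ((f a).take j).sum ≤ (f a).sum := by
      conv_rhs => rw [← List.take_append_drop j (f a), List.sum_append]
      omega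
    have h3 := sz_list_nat_ge (f a)
    have h4 := hqf a
    simp only [eval_add, eval_mul, eval_ofNat, eval_one]
    omega
  · rw [key, one_mul]

end Pool.Agent.Work.MP_013ca9_lc_F
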