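import Pool.Agent.Work.TMLib.Classes
import Mathlib.Combinatorics.Enumerative.Partition.Basic
import Mathlib.Data.Nat.Choose.Multinomial
import Mathlib.Analysis.SpecialFunctions.Log.Basic

/-!
The triple uniform (Good-Turing) offline estimator on strings over the alphabet `Fin d`, online
estimators, regret, and polynomial-time computability.  Strings are elements of `List (Fin d)`.
-/

namespace Pool.Agent.Work.MP_013ca9_lc_F

open Finset TMLib

/-- `m_r`: the number of symbols that occur exactly `r` times in `x`. -/
def numOcc {d : ℕ} (x : List (Fin d)) (r : ℕ) : ℕ := #{i : Fin d | x.count i = r}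

/-- `Part n`: the number of partitions of `n`. -/
def part (n : ℕ) : ℕ := Fintype.card (Nat.Partition n)

/-- The triple uniform estimator `q_n(x)`, with `n = x.length`: the inverse of the product of
the multinomial coefficient `n! / ∏ n_i!`, the multinomial coefficient `d! / ∏ m_r!`
(`0 ≤ r ≤ n`), and the number of partitions of `n`. -/
def q {d : ℕ} (x : List (Fin d)) : ℚ :=
  (Nat.multinomial univ fun i => x.count i : ℚ)⁻¹ *
    (Nat.multinomial (range (x.length + 1)) (numOcc x) : ℚ)⁻¹ *
    (part x.length : ℚ)⁻¹

/-- The triple uniform estimator, normalized to total mass one at each length. -/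
def qNorm {d : ℕ} (x : List (Fin d)) : ℚ := q x / ∑ y : Fin x.length → Fin d, q (List.ofFn y)

/-- An online estimator: a function on strings with values in `[0, 1]`, equal to `1` at the empty
string and time-consistent. -/
structure Online {d : ℕ} (p : List (Fin d) → ℝ) : Prop where
  mem_Icc : ∀ x, p x ∈ Set.Icc (0 : ℝ) 1
  empty : p [] = 1
  consistent : ∀ x, p x = ∑ a, p (x ++ [a])

/-- The regret of `p` against `r` at length `n` is at most `B`: every string `x` of length `n`
has `p x > 0` and `log (r x / p x) ≤ B`. -/
def RegretLE {d : ℕ} (p : List (Fin d) → ℝ) (r : List (Fin d) → ℚ) (n : ℕ) (B : ℝ) : Prop :=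
  ∀ x : List (Fin d), x.length = n → 0 < p x ∧ Real.log (r x / p x) ≤ B

/-- Fractions are written as two natural numbers in binary (least significant digit first),
separated by a mark. -/
def encFrac (r : ℕ × ℕ) : List (Option Bool) := r.1.bits.map some ++ none :: r.2.bits.map some

/-- `p` is computed exactly, in time polynomial in the length of the string: some function `A`
computable in polynomial time maps each string `x` to a fraction equal to `p x`. -/
def PolyTimeExact {d : ℕ} (p : List (Fin d) → ℝ) : Prop :=
  ∃ A : List (Fin d) → ℕ × ℕ, PolyTime (fun x => x) encFrac A ∧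
    ∀ x, 0 < (A x).2 ∧ p x = (A x).1 / (A x).2

end Pool.Agent.Work.MP_013ca9_lc_F
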