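import Pool.Agent.Work.MP_013ca9_lc_F.Mass
import Mathlib.Tactic

/-!
The number of partitions grows faster than any polynomial.
-/

namespace Pool.Agent.Work.MP_013ca9_lc_F

open Finset Nat

theorem sum_le_of_subset {m n : ℕ} (hm : m * m ≤ n) {S : Finset ℕ} (hS : S ⊆ Icc 2 m) :
    ∑ i ∈ S, i ≤ n := by
  have h1 : ∑ i ∈ S, i ≤ ∑ i ∈ range (m + 1), i := by
    refine Finset.sum_le_sum_of_subset fun i hi => ?_
    have := mem_Icc.1 (hS hi)
    exact mem_range.2 (by omega)
  have h2 := Finset.sum_range_id_mul_two (m + 1)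
  have h3 : (m + 1) * (m + 1 - 1) = m * m + m := by
    rw [Nat.add_sub_cancel]
    ring
  have h4 : m ≤ m * m := Nat.le_mul_self m
  omega

/-- The partition consisting of the elements of `S` and ones. -/
def partOf {m n : ℕ} (hm : m * m ≤ n) (S : Finset ℕ) (hS : S ⊆ Icc 2 m) : Nat.Partition n where
  parts := S.val + Multiset.replicate (n - ∑ i ∈ S, i) 1
  parts_pos := by
    intro i hi
    rcases Multiset.mem_add.1 hi with h | h
    · have := mem_Icc.1 (hS h)
      omega
    · rw [Multiset.eq_of_mem_replicate h]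
      norm_num
  parts_sum := by
    have h := sum_le_of_subset hm hS
    have e : S.val.sum = ∑ i ∈ S, i := by
      conv_rhs => rw [Finset.sum, Multiset.map_id']
    rw [Multiset.sum_add, Multiset.sum_replicate, e, smul_eq_mul, mul_one]
    omega

theorem two_pow_le_part {m n : ℕ} (hm : m * m ≤ n) : 2 ^ (m - 1) ≤ part n := by
  classical
  have h1 : Fintype.card ((Icc 2 m).powerset : Finset (Finset ℕ)) = 2 ^ (m - 1) := by
    rw [Fintype.card_coe, Finset.card_powerset, Nat.card_Icc]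
    congr 1
  rw [← h1]
  refine Fintype.card_le_of_injective
    (fun S : ((Icc 2 m).powerset : Finset (Finset ℕ)) =>
      partOf hm S.1 (Finset.mem_powerset.1 S.2)) ?_
  rintro ⟨S, hS⟩ ⟨T, hT⟩ h
  rw [Finset.mem_powerset] at hS hT
  apply Subtype.ext
  have key : ∀ (U : Finset ℕ) (hU : U ⊆ Icc 2 m) (i : ℕ), 2 ≤ i →
      (i ∈ (partOf hm U hU).parts ↔ i ∈ U) := by
    intro U hU i hi
    simp only [partOf]
    rw [Multiset.mem_add]
    constructor
    · rintro (h | h)
      · exact h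
      · have := Multiset.eq_of_mem_replicate h
        omega
    · exact fun h => Or.inl h
  ext i
  simp only at h ⊢
  constructor
  · intro hi
    have h2 := (mem_Icc.1 (hS hi)).1
    rw [← key T hT i h2, ← h, key S hS i h2]
    exact hi
  · intro hi
    have h2 := (mem_Icc.1 (hT hi)).1
    rw [← key S hS i h2, h, key T hT i h2]
    exact hi

theorem exists_threshold (d : ℕ) : ∃ N : ℕ, ∀ n ≥ N, (n + d) ^ d ≤ part n := by
  have h1 : Filter.Tendsto (fun m : ℕ => ((m : ℝ)) ^ (2 * d) / (2 : ℝ) ^ m) Filter.atTop (nhds 0) :=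
    tendsto_pow_const_div_const_pow_of_one_lt _ (by norm_num)
  have h2 : Filter.Tendsto (fun m : ℕ => m + (2 + d)) Filter.atTop Filter.atTop :=
    Filter.tendsto_add_atTop_nat _
  have h3 := h1.comp h2
  have h4 : ∀ᶠ m : ℕ in Filter.atTop, (((m + (2 + d) : ℕ) : ℝ)) ^ (2 * d) /
      (2 : ℝ) ^ (m + (2 + d)) < 1 / 2 ^ (d + 3) := by
    have := h3.eventually (gt_mem_nhds (show (0 : ℝ) < 1 / 2 ^ (d + 3) by positivity))
    simpa using this
  obtain ⟨M, hM⟩ := Filter.eventually_atTop.1 h4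
  refine ⟨(M + 1) * (M + 1), fun n hn => ?_⟩
  set m := Nat.sqrt n with hm
  have hmM : M + 1 ≤ m := by
    rw [hm, Nat.le_sqrt]
    exact hn
  have hmn : m * m ≤ n := Nat.sqrt_le n
  have hnm : n < (m + 1) * (m + 1) := Nat.lt_succ_sqrt n
  have h5 := two_pow_le_part hmn
  refine le_trans ?_ h5
  have h6 := hM m (by omega)
  rw [div_lt_div_iff₀ (by positivity) (by positivity), one_mul] at h6
  have h7 : (m + (2 + d)) ^ (2 * d) * 2 ^ (d + 3) < 2 ^ (m + (2 + d)) := by exact_mod_cast h6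
  have h8 : (m + (2 + d)) ^ (2 * d) < 2 ^ (m - 1) := by
    have e : m + (2 + d) = (m - 1) + (d + 3) := by omega
    rw [e, pow_add 2 (m - 1) (d + 3)] at h7
    rw [e]
    exact lt_of_mul_lt_mul_right h7 (Nat.zero_le _)
  refine le_trans ?_ h8.le
  rw [pow_mul]
  refine Nat.pow_le_pow_left ?_ d
  nlinarith

end Pool.Agent.Work.MP_013ca9_lc_F
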