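import Pool.Agent.Work.MP_013ca9_lc_F.Measure
import Pool.Agent.Work.MP_013ca9_lc_F.Binary
import Pool.Agent.Work.TMLib.FP
import Mathlib.Tactic

/-!
The online estimator has small regret and is computed exactly in polynomial time.
-/

namespace Pool.Agent.Work.MP_013ca9_lc_F

open Finset Nat TMLib

set_option linter.unusedSimpArgs false

variable {d : ℕ}

/-- The weights. -/
def wt (s : ℕ) : ℚ := 1 / ((s + 1) * (s + 2))

theorem wt_pos (s : ℕ) : 0 < wt s := by unfold wt; positivity

theorem sum_wt (N : ℕ) : ∑ s ∈ range (N + 1), wt s = 1 - 1 / (N + 2) := by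
  induction N with
  | zero => simp [wt]; norm_num
  | succ N ih =>
    rw [Finset.sum_range_succ, ih]
    unfold wt
    push_cast
    field_simp
    ring

/-- The finite mixture. -/
def mix (N : ℕ) (x : List (Fin d)) : ℚ := ∑ s ∈ range (N + 1), wt s * mg s x

/-- The weight of Laplace's estimator. -/
def cL (d N : ℕ) : ℚ := 1 - mix N ([] : List (Fin d))

theorem cL_eq (hd : 0 < d) (N : ℕ) : cL d N = 1 / ((N : ℚ) + 2) := by
  unfold cL mix
  have h : ∑ s ∈ range (N + 1), wt s * mg s ([] : List (Fin d)) = ∑ s ∈ range (N + 1), wt s := by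
    refine Finset.sum_congr rfl fun s _ => ?_
    rw [mg_nil hd, mul_one]
  rw [h, sum_wt]
  ring

/-- The estimator. -/
def est (N : ℕ) (x : List (Fin d)) : ℚ := mix N x + cL d N * lap x

theorem est_cons (hd : 0 < d) (N : ℕ) : Cons (est (d := d) N) := by
  intro x
  unfold est mix
  rw [Finset.sum_add_distrib, Finset.sum_comm]
  congr 1
  · refine Finset.sum_congr rfl fun s _ => ?_
    rw [← Finset.mul_sum, ← mg_cons hd s x]
  · rw [← Finset.mul_sum, ← lap_cons hd x]

theorem est_nil (hd : 0 < d) (N : ℕ) : est N ([] : List (Fin d)) = 1 := by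
  unfold est cL
  rw [lap_nil]
  ring

theorem cL_pos (hd : 0 < d) (N : ℕ) : 0 < cL d N := by
  rw [cL_eq hd]
  positivity

theorem mix_nonneg (hd : 0 < d) (N : ℕ) (x : List (Fin d)) : 0 ≤ mix N x :=
  Finset.sum_nonneg fun s _ => mul_nonneg (wt_pos s).le (mg_nonneg hd s x)

theorem est_pos (hd : 0 < d) (N : ℕ) (x : List (Fin d)) : 0 < est N x :=
  add_pos_of_nonneg_of_pos (mix_nonneg hd N x) (mul_pos (cL_pos hd N) (lap_pos x))

theorem est_le_one (hd : 0 < d) (N : ℕ) (x : List (Fin d)) : est N x ≤ 1 := by
  induction x using List.reverseRecOn with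
  | nil => rw [est_nil hd]
  | append_singleton x a ih =>
    refine le_trans ?_ ih
    rw [est_cons hd N x]
    exact Finset.single_le_sum (f := fun a => est N (x ++ [a])) (fun b _ => (est_pos hd N _).le)
      (mem_univ a)

theorem est_ge_small (hd : 0 < d) {N : ℕ} {x : List (Fin d)} (h : x.length ≤ N) :
    wt x.length * qNorm x ≤ est N x := by
  have h1 : wt x.length * qNorm x ≤ mix N x := by
    unfold mix
    have := Finset.single_le_sum (f := fun s => wt s * mg s x)
      (fun s _ => mul_nonneg (wt_pos s).le (mg_nonneg hd s x))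
      (mem_range.2 (Nat.lt_succ_of_le h))
    simpa [mg_self] using this
  have h2 := mul_pos (cL_pos hd N) (lap_pos x)
  unfold est
  linarith

theorem est_ge_large (hd : 0 < d) (N : ℕ) (x : List (Fin d)) :
    1 / ((N : ℚ) + 2) * lap x ≤ est N x := by
  have h1 := mix_nonneg hd N x
  unfold est
  rw [cL_eq hd]
  linarith

theorem ratio_le (hd : 0 < d) (x : List (Fin d)) :
    qNorm x ≤ est (d !) x * ((x.length : ℚ) + 2) ^ 2 := by
  have hq := qNorm_pos hd x
  rcases le_or_gt x.length (d !) with h | h
  · have h1 := est_ge_small hd h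
    have h2 : wt x.length * ((x.length : ℚ) + 2) ^ 2 ≥ 1 := by
      unfold wt
      rw [ge_iff_le, div_mul_eq_mul_div, le_div_iff₀ (by positivity)]
      nlinarith [Nat.cast_nonneg (α := ℚ) x.length]
    calc qNorm x = qNorm x * 1 := by ring
      _ ≤ qNorm x * (wt x.length * ((x.length : ℚ) + 2) ^ 2) := by gcongr
      _ = (wt x.length * qNorm x) * ((x.length : ℚ) + 2) ^ 2 := by ring
      _ ≤ _ := by gcongr
  · have h1 := est_ge_large hd (d !) x
    have h2 := qNorm_le_lap hd x
    have h3 : ((d ! : ℕ) : ℚ) ≤ x.length := by exact_mod_cast h.le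
    have h4 : lap x ≤ est (d !) x * (((d ! : ℕ) : ℚ) + 2) := by
      rw [one_div, inv_mul_le_iff₀ (by positivity)] at h1
      linarith
    have h5 := est_pos hd (d !) x
    calc qNorm x ≤ (d ! : ℕ) * lap x := h2
      _ ≤ (x.length + 2) * (est (d !) x * (((d ! : ℕ) : ℚ) + 2)) := by
        have := (lap_pos x).le
        gcongr
        linarith
      _ ≤ (x.length + 2) * (est (d !) x * ((x.length : ℚ) + 2)) := by gcongr
      _ = _ := by ring

theorem online_est (hd : 0 < d) (N : ℕ) : Online (fun x : List (Fin d) => (est N x : ℝ)) where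
  mem_Icc x := ⟨by exact_mod_cast (est_pos hd N x).le, by exact_mod_cast est_le_one hd N x⟩
  empty := by simp [est_nil hd]
  consistent x := by
    have := est_cons hd N x
    exact_mod_cast this

theorem regret_est (hd : 0 < d) {r : List (Fin d) → ℚ} (hr : ∀ x, 0 < r x ∧ r x ≤ qNorm x)
    (n : ℕ) :
    RegretLE (fun x : List (Fin d) => (est (d !) x : ℝ)) r n (2 * Real.log (n + 2)) := by
  intro x hx
  have hp : (0 : ℝ) < (est (d !) x : ℝ) := by exact_mod_cast est_pos hd (d !) x
  have hq : (0 : ℝ) < (r x : ℝ) := by exact_mod_cast (hr x).1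
  refine ⟨hp, ?_⟩
  have h := (hr x).2.trans (ratio_le hd x)
  rw [hx] at h
  have h' : (r x : ℝ) ≤ (est (d !) x : ℝ) * ((n : ℝ) + 2) ^ 2 := by exact_mod_cast h
  have e : 2 * Real.log ((n : ℝ) + 2) = Real.log (((n : ℝ) + 2) ^ 2) := by
    rw [Real.log_pow]
    norm_num
  rw [e]
  refine Real.log_le_log (div_pos hq hp) ?_
  rw [div_le_iff₀ hp]
  linarith

/-! ### The algorithm -/

/-- The contribution of the finite mixture, multiplied by `d ^ n`. -/
def G (N : ℕ) (y : List (Fin d)) : ℚ := (d : ℚ) ^ y.length * mix N y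

theorem mix_eq (hd : 0 < d) (N : ℕ) (x : List (Fin d)) :
    mix N x = G N (x.take N) / (d : ℚ) ^ x.length := by
  have hd' : (d : ℚ) ≠ 0 := by exact_mod_cast hd.ne'
  rcases le_or_gt x.length N with h | h
  · rw [List.take_of_length_le h]
    unfold G
    field_simp
  · unfold G mix
    rw [eq_div_iff (by positivity), Finset.sum_mul, Finset.mul_sum]
    have hl : (x.take N).length = N := by simp; omega
    refine Finset.sum_congr rfl fun s hs => ?_
    have hs' : s ≤ N := Nat.lt_succ_iff.1 (mem_range.1 hs)
    rw [mg_of_ge (by omega : s ≤ x.length), mg_of_ge (by omega : s ≤ (x.take N).length), hl,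
      List.take_take, min_eq_left hs']
    have e1 : (d : ℚ) ^ x.length = (d : ℚ) ^ (x.length - s) * (d : ℚ) ^ s := by
      rw [← pow_add]
      congr 1
      omega
    have e2 : (d : ℚ) ^ N = (d : ℚ) ^ (N - s) * (d : ℚ) ^ s := by
      rw [← pow_add]
      congr 1
      omega
    rw [e1, e2, inv_pow, inv_pow]
    field_simp

theorem G_nonneg (hd : 0 < d) (N : ℕ) (y : List (Fin d)) : 0 ≤ G N y :=
  mul_nonneg (by positivity) (mix_nonneg hd N y)

/-- The fraction computed by the algorithm. -/
def alg (N : ℕ) (x : List (Fin d)) : ℕ × ℕ :=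
  ((G N (x.take N)).num.toNat * (cL d N).den * (x.length + d - 1)! +
      (G N (x.take N)).den * (cL d N).num.toNat * (d - 1)! * (d ^ x.length * ∏ i, (x.count i)!),
    (G N (x.take N)).den * (cL d N).den * (d ^ x.length * (x.length + d - 1)!))

theorem alg_pos (hd : 0 < d) (N : ℕ) (x : List (Fin d)) : 0 < (alg N x).2 := by
  unfold alg
  have h1 := (G N (x.take N)).den_pos
  have h2 := (cL d N).den_pos
  have h3 := Nat.factorial_pos (x.length + d - 1)
  have h4 : 0 < d ^ x.length := by positivity
  positivity

theorem num_toNat {r : ℚ} (h : 0 ≤ r) : ((r.num.toNat : ℕ) : ℚ) = r * r.den := by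
  have h1 : ((r.num.toNat : ℕ) : ℤ) = r.num := Int.toNat_of_nonneg (Rat.num_nonneg.2 h)
  have h2 : ((r.num.toNat : ℕ) : ℚ) = (r.num : ℚ) := by exact_mod_cast h1
  rw [h2]
  exact (Rat.mul_den_eq_num r).symm

theorem alg_eq (hd : 0 < d) (N : ℕ) (x : List (Fin d)) :
    est N x = ((alg N x).1 : ℚ) / (alg N x).2 := by
  have hd' : (d : ℚ) ≠ 0 := by exact_mod_cast hd.ne'
  have h1 : ((G N (x.take N)).den : ℚ) ≠ 0 := by exact_mod_cast (G N (x.take N)).den_nz
  have h2 : ((cL d N).den : ℚ) ≠ 0 := by exact_mod_cast (cL d N).den_nz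
  have h3 : (((x.length + d - 1)! : ℕ) : ℚ) ≠ 0 := by exact_mod_cast (Nat.factorial_pos _).ne'
  unfold alg est lap
  rw [mix_eq hd]
  simp only
  push_cast
  rw [num_toNat (G_nonneg hd N _), num_toNat (cL_pos hd N).le]
  field_simp

/-! ### Polynomial time -/

theorem PolyF.finVal : PolyF (fun i : Fin d => i.val) := PolyF.of_G (PolyG.refl _) fun _ => rfl

theorem PolyF.finEq {α : Type} [DE α] {f : α → Fin d} (hf : PolyF f) (i : Fin d) :
    PolyF (fun a => decide (f a = i)) := by
  have h1 : PolyF (fun a => (f a).val) := PolyF.comp (f := fun i : Fin d => i.val) PolyF.finVal hf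
  have h2 : PolyF (fun a => decide ((f a).val = i.val)) := by fun_prop
  exact h2.congrF fun a => by simp [Fin.ext_iff]

theorem PolyF.select {α β : Type} [DE α] [DE β] {s : α → Fin d} (hs : PolyF s)
    {h : Fin d → α → β} (hh : ∀ i, PolyF (h i)) (b : β) : PolyF (fun a => h (s a) a) := by
  have key : ∀ l : List (Fin d), PolyF (fun a => if s a ∈ l then h (s a) a else b) := by
    intro l
    induction l with
    | nil => simpa using PolyF.const b
    | cons i l ih =>
      have := PolyF.ite (c := fun a => s a = i) (PolyF.finEq hs i) (hh i) ih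
      refine this.congrF fun a => ?_
      by_cases h1 : s a = i
      · simp [h1]
      · simp [h1]
  exact (key (List.finRange d)).congrF fun a => by simp

theorem PolyF.table {β : Type} [DE β] (hd : 0 < d) (N : ℕ) (T : List (Fin d) → β) :
    PolyF (fun x : List (Fin d) => T (x.take N)) := by
  induction N generalizing T with
  | zero => simpa using PolyF.const (T [])
  | succ N ih =>
    have h1 : PolyF (fun x : List (Fin d) => x.headD ⟨0, hd⟩) := by fun_prop
    have h2 : ∀ i : Fin d, PolyF (fun x : List (Fin d) => T (i :: x.tail.take N)) := by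
      intro i
      exact PolyF.comp (f := fun x : List (Fin d) => T (i :: x.take N))
        (g := fun x : List (Fin d) => x.tail) (ih fun y => T (i :: y)) (by fun_prop)
    have h3 := PolyF.select h1 h2 (T [])
    have h4 : PolyF (fun x : List (Fin d) => bif x.isEmpty then T [] else
        T (x.headD ⟨0, hd⟩ :: x.tail.take N)) := by
      have h5 : PolyF (fun x : List (Fin d) => x.isEmpty) := by fun_prop
      exact h5.cond (PolyF.const _) h3
    refine h4.congrF fun x => ?_
    cases x <;> simp

/-- The list `1, …, n`. -/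
def oneTo (n : ℕ) : List ℕ := (List.range n).map fun i => i + 1

theorem prod_oneTo (n : ℕ) : (oneTo n).prod = n ! := by
  induction n with
  | zero => rfl
  | succ n ih =>
    unfold oneTo at ih ⊢
    rw [List.range_succ, List.map_append, List.prod_append, ih, Nat.factorial_succ]
    simp [mul_comm]

theorem PolyF.upTo {α : Type} [DE α] {f : α → ℕ} (hf : PolyF f) :
    PolyF (fun a => oneTo (f a)) := by
  unfold oneTo
  exact PolyF.map (l := fun a => List.range (f a)) (f := fun _ i => i + 1) (by fun_prop)
    (by fun_prop)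

theorem PolyF.count (i : Fin d) : PolyF (fun x : List (Fin d) => x.count i) := by
  have h1 : PolyF (fun x : List (Fin d) => x.filter (fun a => decide (a = i))) :=
    PolyF.filter (l := fun x : List (Fin d) => x) (f := fun _ a => decide (a = i)) (by fun_prop)
      (PolyF.finEq (f := fun p : List (Fin d) × Fin d => p.2) (by fun_prop) i)
  have h2 : PolyF (fun x : List (Fin d) => (x.filter (fun a => decide (a = i))).length) := by
    fun_prop
  refine h2.congrF fun x => ?_
  rw [List.count, List.countP_eq_length_filter]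
  rfl

theorem PolyF.flat {β : Type} [DE β] {h : Fin d → List (Fin d) → List β}
    (hh : ∀ i, PolyF (h i)) (l : List (Fin d)) : PolyF (fun x => l.flatMap fun i => h i x) := by
  induction l with
  | nil => simpa using PolyF.const []
  | cons i l ih =>
    simp only [List.flatMap_cons]
    exact PolyF.append (hh i) ih

theorem prod_flat (x : List (Fin d)) (l : List (Fin d)) :
    (l.flatMap fun i => oneTo (x.count i)).prod = (l.map fun i => (x.count i)!).prod := by
  induction l with
  | nil => rfl
  | cons i l ih => simp [ih, prod_oneTo]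

theorem PolyF.alg1 (hd : 0 < d) (N : ℕ) :
    PolyF (fun x : List (Fin d) => (alg N x).1.bits) := by
  have hT1 := PolyF.table hd N (fun y : List (Fin d) => (G N y).num.toNat * (cL d N).den)
  have hT2 := PolyF.table hd N (fun y : List (Fin d) =>
    (G N y).den * (cL d N).num.toNat * (d - 1)!)
  have hU : PolyF (fun x : List (Fin d) => oneTo (x.length + d - 1)) :=
    PolyF.upTo (f := fun x : List (Fin d) => x.length + d - 1) (by fun_prop)
  have hP : PolyF (fun x : List (Fin d) => (List.finRange d).flatMap fun i => oneTo (x.count i)) :=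
    PolyF.flat (fun i => PolyF.upTo (PolyF.count i)) _
  have hD : PolyF (fun x : List (Fin d) => x.map fun _ => d) :=
    PolyF.map (l := fun x : List (Fin d) => x) (f := fun _ _ => d) (by fun_prop) (by fun_prop)
  have h1 : PolyF (fun x : List (Fin d) =>
      BN.mk (((G N (x.take N)).num.toNat * (cL d N).den) :: oneTo (x.length + d - 1)).prod) :=
    PolyF.prodBN (PolyF.cons hT1 hU)
  have h2 : PolyF (fun x : List (Fin d) =>
      BN.mk (((G N (x.take N)).den * (cL d N).num.toNat * (d - 1)!) ::
        ((x.map fun _ => d) ++ (List.finRange d).flatMap fun i => oneTo (x.count i))).prod) :=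
    PolyF.prodBN (PolyF.cons hT2 (PolyF.append hD hP))
  have h3 := PolyF.bitsBN (PolyF.addBN h1 h2)
  refine h3.congrF fun x => ?_
  congr 1
  unfold alg
  simp only [List.prod_cons, List.prod_append, prod_oneTo, prod_flat]
  have e1 : (x.map fun _ => d).prod = d ^ x.length := by
    rw [List.map_const', List.prod_replicate]
  have e2 : ((List.finRange d).map fun i => (x.count i)!).prod = ∏ i, (x.count i)! := by
    rw [Fin.prod_univ_def]
  rw [e1, e2]

theorem PolyF.alg2 (hd : 0 < d) (N : ℕ) :
    PolyF (fun x : List (Fin d) => (alg N x).2.bits) := by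
  have hT1 := PolyF.table hd N (fun y : List (Fin d) => (G N y).den * (cL d N).den)
  have hU : PolyF (fun x : List (Fin d) => oneTo (x.length + d - 1)) :=
    PolyF.upTo (f := fun x : List (Fin d) => x.length + d - 1) (by fun_prop)
  have hD : PolyF (fun x : List (Fin d) => x.map fun _ => d) :=
    PolyF.map (l := fun x : List (Fin d) => x) (f := fun _ _ => d) (by fun_prop) (by fun_prop)
  have h1 : PolyF (fun x : List (Fin d) =>
      BN.mk (((G N (x.take N)).den * (cL d N).den) ::
        ((x.map fun _ => d) ++ oneTo (x.length + d - 1))).prod) :=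
    PolyF.prodBN (PolyF.cons hT1 (PolyF.append hD hU))
  have h3 := PolyF.bitsBN h1
  refine h3.congrF fun x => ?_
  congr 1
  unfold alg
  simp only [List.prod_cons, List.prod_append, prod_oneTo]
  have e1 : (x.map fun _ => d).prod = d ^ x.length := by
    rw [List.map_const', List.prod_replicate]
  rw [e1]

/-- Numbering of the output symbols. -/
def eB : Option Bool ≃ Fin 3 where
  toFun
    | some false => 0
    | some true => 1
    | none => 2
  invFun
    | 0 => some false
    | 1 => some true
    | 2 => none
  left_inv := by rintro (_ | (_ | _)) <;> rfl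
  right_inv := by
    intro i
    fin_cases i <;> rfl

theorem PolyF.eBsome : PolyF (fun b : Bool => eB (some b)) := by
  have : PolyF (fun b : Bool => bif b then (1 : Fin 3) else 0) := by fun_prop
  refine this.congrF fun b => ?_
  cases b <;> rfl

theorem polyTime_est (hd : 0 < d) (N : ℕ) :
    PolyTimeExact (fun x : List (Fin d) => (est N x : ℝ)) := by
  refine ⟨alg N, ?_, fun x => ⟨alg_pos hd N x, ?_⟩⟩
  · have hm : ∀ {f : List (Fin d) → List Bool}, PolyF f →
        PolyF (fun x => (f x).map (fun b => eB (some b))) := by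
      intro f hf
      exact PolyF.map (l := f) (f := fun _ b => eB (some b)) hf
        (PolyF.comp (f := fun b : Bool => eB (some b)) (g := fun p : List (Fin d) × Bool => p.2)
          PolyF.eBsome (by fun_prop))
    have h : PolyF (fun x : List (Fin d) => (alg N x).1.bits.map (fun b => eB (some b)) ++
        eB none :: (alg N x).2.bits.map (fun b => eB (some b))) :=
      PolyF.append (hm (PolyF.alg1 hd N)) (PolyF.cons (PolyF.const _) (hm (PolyF.alg2 hd N)))
    refine PolyTime.of_PolyF (Equiv.refl (Fin d)) eB h fun x => ?_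
    have hx : x.map (Equiv.refl (Fin d)) = x := by
      rw [Equiv.coe_refl, List.map_id]
    rw [hx]
    simp [encFrac, List.map_append, List.map_map, Function.comp_def]
  · simp only
    rw [alg_eq hd N x]
    push_cast
    rfl

/-- For each alphabet there is an online estimator with the required regret, computed exactly in
polynomial time. -/
theorem main (hd : 0 < d) : ∃ p : List (Fin d) → ℝ, Online p ∧
    (∀ n : ℕ, RegretLE p q n (2 * Real.log (n + 2))) ∧
    (∀ n : ℕ, RegretLE p qNorm n (2 * Real.log (n + 2))) ∧ PolyTimeExact p :=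
  ⟨_, online_est hd (d !), regret_est hd fun x => ⟨q_pos x, q_le_qNorm hd x⟩,
    regret_est hd fun x => ⟨qNorm_pos hd x, le_rfl⟩, polyTime_est hd (d !)⟩

end Pool.Agent.Work.MP_013ca9_lc_F
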