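import Pool.Agent.Work.MP_013ca9_lc_F.Defs
import Mathlib.GroupTheory.Perm.DomMulAct
import Mathlib.Tactic

/-!
The triple uniform estimator has total mass at most one at each length.
-/

namespace Pool.Agent.Work.MP_013ca9_lc_F

open Finset Nat

section count

variable {α β : Type} [Fintype α] [DecidableEq α] [Fintype β] [DecidableEq β]

theorem exists_perm {f g : α → β} (h : ∀ b, #{a | g a = b} = #{a | f a = b}) :
    ∃ σ : Equiv.Perm α, f ∘ σ = g := by
  have h' : ∀ b, Fintype.card {a // g a = b} = Fintype.card {a // f a = b} := by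
    intro b
    rw [Fintype.card_subtype, Fintype.card_subtype]
    exact h b
  have e : ∀ b, {a // g a = b} ≃ {a // f a = b} := fun b => Fintype.equivOfCardEq (h' b)
  refine ⟨(Equiv.sigmaFiberEquiv g).symm.trans
    ((Equiv.sigmaCongrRight e).trans (Equiv.sigmaFiberEquiv f)), ?_⟩
  funext a
  simp only [Function.comp_apply, Equiv.trans_apply]
  exact (e (g a) ⟨a, rfl⟩).2

/-- The number of functions with prescribed fibre sizes is at most the multinomial coefficient. -/
theorem card_fiber_le (f : α → β) :
    #{g : α → β | ∀ b, #{a | g a = b} = #{a | f a = b}} ≤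
      Nat.multinomial univ (fun b => #{a | f a = b}) := by
  classical
  set S : Finset (α → β) := {g : α → β | ∀ b, #{a | g a = b} = #{a | f a = b}} with hS
  have hex : ∀ g : S, ∃ σ : Equiv.Perm α, f ∘ σ = g.1 := by
    intro g
    have := (mem_filter.1 g.2).2
    exact exists_perm this
  choose σ hσ using hex
  have hinj : Function.Injective
      (fun p : S × {τ : Equiv.Perm α // f ∘ τ = f} => p.2.1 * σ p.1) := by
    rintro ⟨g, τ, hτ⟩ ⟨g', τ', hτ'⟩ h
    simp only at h
    have e1 : ∀ (g : S) (τ : Equiv.Perm α), f ∘ τ = f → f ∘ (τ * σ g : Equiv.Perm α) = g.1 := by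
      intro g τ hτ
      rw [← hσ g]
      conv_rhs => rw [← hτ]
      rfl
    have e2 : g = g' := by
      apply Subtype.ext
      rw [← e1 g τ hτ, ← e1 g' τ' hτ', h]
    subst e2
    have e3 := mul_right_cancel h
    subst e3
    rfl
  have hcard := Fintype.card_le_of_injective _ hinj
  rw [Fintype.card_prod, Fintype.card_coe, DomMulAct.stabilizer_card, Fintype.card_perm] at hcard
  have hspec := Nat.multinomial_spec (s := (univ : Finset β)) (f := fun b => #{a | f a = b})
  have hsum : ∑ b, #{a | f a = b} = Fintype.card α := by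
    rw [← Finset.card_univ, Finset.card_eq_sum_card_fiberwise (f := f) (t := univ) (by simp)]
  rw [hsum] at hspec
  rw [← hspec] at hcard
  have hcard' : #S * ∏ b, (#{a | f a = b})! ≤ (∏ b, (#{a | f a = b})!) *
      Nat.multinomial univ (fun b => #{a | f a = b}) := by
    simpa [Fintype.card_subtype] using hcard
  rw [mul_comm] at hcard'
  exact Nat.le_of_mul_le_mul_left hcard' (Finset.prod_pos fun b _ => Nat.factorial_pos _)

end count

variable {n d : ℕ}

/-- Number of occurrences. -/
def cn (f : Fin n → Fin d) (i : Fin d) : ℕ := #{t | f t = i}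

theorem cn_le (f : Fin n → Fin d) (i : Fin d) : cn f i ≤ n := by
  have := Finset.card_le_univ (α := Fin n) ({t | f t = i} : Finset (Fin n))
  simpa [cn] using this

theorem sum_cn (f : Fin n → Fin d) : ∑ i, cn f i = n := by
  have := Finset.card_eq_sum_card_fiberwise (f := f) (s := univ) (t := univ) (by simp)
  simpa [cn] using this.symm

theorem count_ofFn (f : Fin n → Fin d) (i : Fin d) : (List.ofFn f).count i = cn f i := by
  unfold cn
  rw [Finset.card_filter]
  induction n with
  | zero => simp
  | succ n ih =>
    rw [List.ofFn_succ, List.count_cons, ih, Fin.sum_univ_succ, add_comm]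
    simp

/-- Profile of a function. -/
def pr (c : Fin d → ℕ) (r : ℕ) : ℕ := #{i | c i = r}

/-- The partition of `n` given by a function. -/
def tau (f : Fin n → Fin d) : Nat.Partition n :=
  Nat.Partition.ofSums n ((univ : Finset (Fin d)).val.map (cn f)) (by
    have := sum_cn f
    simpa [Finset.sum] using this)

theorem count_map (c : Fin d → ℕ) (r : ℕ) :
    ((univ : Finset (Fin d)).val.map c).count r = pr c r := by
  rw [Multiset.count_map]
  unfold pr
  rw [Finset.card, Finset.filter_val]
  congr 1
  exact Multiset.filter_congr fun x _ => eq_comm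

theorem map_eq_of_tau {f g : Fin n → Fin d} (h : tau f = tau g) :
    (univ : Finset (Fin d)).val.map (cn f) = (univ : Finset (Fin d)).val.map (cn g) := by
  have h1 : ∀ r, r ≠ 0 → ((univ : Finset (Fin d)).val.map (cn f)).count r =
      ((univ : Finset (Fin d)).val.map (cn g)).count r := by
    intro r hr
    have e := congrArg (fun l : Nat.Partition n => l.parts.count r) h
    simp only [tau] at e
    rwa [Nat.Partition.count_ofSums_of_ne_zero _ hr, Nat.Partition.count_ofSums_of_ne_zero _ hr] at e
  have hfil : ∀ c : Fin d → ℕ, ∀ r, r ≠ 0 →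
      (((univ : Finset (Fin d)).val.map c).filter (· ≠ 0)).count r =
        ((univ : Finset (Fin d)).val.map c).count r := by
    intro c r hr
    rw [Multiset.count_filter, if_pos hr]
  have h2 : ((univ : Finset (Fin d)).val.map (cn f)).filter (· ≠ 0) =
      ((univ : Finset (Fin d)).val.map (cn g)).filter (· ≠ 0) := by
    ext r
    by_cases hr : r = 0
    · subst hr
      rw [Multiset.count_filter, Multiset.count_filter]
      simp
    · rw [hfil _ _ hr, hfil _ _ hr, h1 r hr]
  ext r
  by_cases hr : r = 0
  · subst hr
    have hc : ∀ c : Fin d → ℕ, ((univ : Finset (Fin d)).val.map c).count 0 +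
        Multiset.card (((univ : Finset (Fin d)).val.map c).filter (· ≠ 0)) = d := by
      intro c
      have e1 := Multiset.filter_add_not (fun x => x = 0) ((univ : Finset (Fin d)).val.map c)
      have e2 := congrArg Multiset.card e1
      rw [Multiset.card_add, Multiset.card_map] at e2
      rw [Multiset.count_eq_card_filter_eq]
      have e3 : Multiset.card (univ : Finset (Fin d)).val = d := by simp
      rw [e3] at e2
      have e4 : ((univ : Finset (Fin d)).val.map c).filter (fun x => 0 = x) =
          ((univ : Finset (Fin d)).val.map c).filter (fun x => x = 0) :=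
        Multiset.filter_congr fun x _ => eq_comm
      rw [e4]
      exact e2
    have e1 := hc (cn f)
    have e2 := hc (cn g)
    rw [h2] at e1
    omega
  · exact h1 r hr

theorem multinomial_eq_of_map {c c' : Fin d → ℕ}
    (h : (univ : Finset (Fin d)).val.map c = (univ : Finset (Fin d)).val.map c') :
    Nat.multinomial univ c = Nat.multinomial univ c' := by
  have e1 : ∑ i, c i = ∑ i, c' i := congrArg Multiset.sum h
  have e2 : ∏ i, (c i)! = ∏ i, (c' i)! := by
    have := congrArg (fun m => (m.map Nat.factorial).prod) h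
    simp only [Multiset.map_map] at this
    exact this
  unfold Nat.multinomial
  rw [e1, e2]

theorem pr_eq_of_map {c c' : Fin d → ℕ}
    (h : (univ : Finset (Fin d)).val.map c = (univ : Finset (Fin d)).val.map c') : pr c = pr c' := by
  funext r
  rw [← count_map, ← count_map, h]

theorem map_eq_of_pr {c c' : Fin d → ℕ} (h : ∀ r, pr c r = pr c' r) :
    (univ : Finset (Fin d)).val.map c = (univ : Finset (Fin d)).val.map c' := by
  ext r
  rw [count_map, count_map, h]

/-- The number of functions giving the same counts. -/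
theorem card_cn_le (f : Fin n → Fin d) :
    #{g : Fin n → Fin d | cn g = cn f} ≤ Nat.multinomial univ (cn f) := by
  refine le_trans (le_of_eq ?_) (card_fiber_le f)
  congr 1
  ext g
  simp [funext_iff, cn]

/-- Counts as elements of `Fin (n + 1)`. -/
def cnF (f : Fin n → Fin d) (i : Fin d) : Fin (n + 1) := ⟨cn f i, Nat.lt_succ_of_le (cn_le f i)⟩

theorem card_cnF_fiber (f : Fin n → Fin d) (r : Fin (n + 1)) :
    #{i | cnF f i = r} = pr (cn f) r := by
  unfold pr
  congr 1
  ext i
  simp [cnF, Fin.ext_iff]

theorem card_tau_le (f : Fin n → Fin d) :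
    #{g : Fin n → Fin d | tau g = tau f} ≤
      Nat.multinomial univ (cn f) * Nat.multinomial (range (n + 1)) (pr (cn f)) := by
  classical
  set T : Finset (Fin n → Fin d) := {g : Fin n → Fin d | tau g = tau f} with hT
  have h1 : #T ≤ Nat.multinomial univ (cn f) * #(T.image cnF) := by
    refine Finset.card_le_mul_card_image T _ ?_
    intro c hc
    obtain ⟨g, hg, rfl⟩ := Finset.mem_image.1 hc
    have hg' : tau g = tau f := by
      rw [hT, mem_filter] at hg
      exact hg.2
    rw [← multinomial_eq_of_map (map_eq_of_tau hg')]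
    refine le_trans (Finset.card_le_card ?_) (card_cn_le g)
    intro x hx
    rw [mem_filter] at hx ⊢
    refine ⟨mem_univ _, ?_⟩
    funext i
    have := congrFun hx.2 i
    simpa [cnF, Fin.ext_iff] using this
  have h2 : #(T.image cnF) ≤ Nat.multinomial (range (n + 1)) (pr (cn f)) := by
    have h3 := card_fiber_le (cnF f)
    have h4 : Nat.multinomial univ (fun b : Fin (n + 1) => #{a | cnF f a = b}) =
        Nat.multinomial (range (n + 1)) (pr (cn f)) := by
      simp_rw [card_cnF_fiber]
      unfold Nat.multinomial
      rw [Fin.sum_univ_eq_sum_range (fun r => pr (cn f) r),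
        Fin.prod_univ_eq_prod_range (fun r => (pr (cn f) r)!)]
    rw [← h4]
    refine le_trans (Finset.card_le_card
      (t := {g : Fin d → Fin (n + 1) | ∀ b, #{a | g a = b} = #{a | cnF f a = b}}) ?_)
      (le_of_eq_of_le (by congr) h3)
    intro c hc
    obtain ⟨g, hg, rfl⟩ := Finset.mem_image.1 hc
    have hg' : tau g = tau f := by
      rw [hT, mem_filter] at hg
      exact hg.2
    rw [mem_filter]
    refine ⟨mem_univ _, fun b => ?_⟩
    rw [card_cnF_fiber, card_cnF_fiber, pr_eq_of_map (map_eq_of_tau hg')]
  exact h1.trans (Nat.mul_le_mul_left _ h2)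

theorem numOcc_ofFn (f : Fin n → Fin d) : numOcc (List.ofFn f) = pr (cn f) := by
  funext r
  unfold numOcc pr
  simp_rw [count_ofFn]

theorem q_ofFn (f : Fin n → Fin d) : q (List.ofFn f) =
    (Nat.multinomial univ (cn f) : ℚ)⁻¹ *
      (Nat.multinomial (range (n + 1)) (pr (cn f)) : ℚ)⁻¹ * (part n : ℚ)⁻¹ := by
  unfold q
  rw [numOcc_ofFn]
  simp_rw [count_ofFn, List.length_ofFn]

theorem part_pos (n : ℕ) : 0 < part n := Fintype.card_pos

theorem sum_q_le_one : ∑ f : Fin n → Fin d, q (List.ofFn f) ≤ 1 := by
  classical
  have hp : (0 : ℚ) < part n := by exact_mod_cast part_pos n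
  have key : ∑ f : Fin n → Fin d, (Nat.multinomial univ (cn f) : ℚ)⁻¹ *
      (Nat.multinomial (range (n + 1)) (pr (cn f)) : ℚ)⁻¹ ≤ part n := by
    rw [← Finset.sum_fiberwise univ tau]
    have : (part n : ℚ) = ∑ _l : Nat.Partition n, (1 : ℚ) := by simp [part]
    rw [this]
    refine Finset.sum_le_sum fun l _ => ?_
    by_cases hl : ∃ f : Fin n → Fin d, tau f = l
    · obtain ⟨f, rfl⟩ := hl
      have h1 : ∀ g ∈ (univ.filter fun g : Fin n → Fin d => tau g = tau f),
          (Nat.multinomial univ (cn g) : ℚ)⁻¹ *
            (Nat.multinomial (range (n + 1)) (pr (cn g)) : ℚ)⁻¹ =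
          (Nat.multinomial univ (cn f) : ℚ)⁻¹ *
            (Nat.multinomial (range (n + 1)) (pr (cn f)) : ℚ)⁻¹ := by
        intro g hg
        rw [mem_filter] at hg
        have := map_eq_of_tau hg.2
        rw [multinomial_eq_of_map this, pr_eq_of_map this]
      rw [Finset.sum_congr rfl h1, Finset.sum_const, nsmul_eq_mul]
      have h2 := card_tau_le f
      have hA : (0 : ℚ) < Nat.multinomial univ (cn f) := by
        exact_mod_cast Nat.multinomial_pos _ _
      have hB : (0 : ℚ) < Nat.multinomial (range (n + 1)) (pr (cn f)) := by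
        exact_mod_cast Nat.multinomial_pos _ _
      have h3 : ((#{g : Fin n → Fin d | tau g = tau f} : ℕ) : ℚ) ≤
          Nat.multinomial univ (cn f) * Nat.multinomial (range (n + 1)) (pr (cn f)) := by
        exact_mod_cast h2
      rw [← mul_inv, ← div_eq_mul_inv, div_le_one (mul_pos hA hB)]
      exact h3
    · rw [Finset.sum_eq_zero]
      · norm_num
      · intro f hf
        rw [mem_filter] at hf
        exact absurd ⟨f, hf.2⟩ hl
  simp_rw [q_ofFn]
  rw [← Finset.sum_mul, ← div_eq_mul_inv, div_le_one hp]
  exact key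

end Pool.Agent.Work.MP_013ca9_lc_F
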