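import Pool.Agent.Work.MP_013ca9_lc_F.Mass
import Mathlib.Tactic

/-!
The online estimator: a finite mixture of marginals of the triple uniform estimator together with
Laplace's estimator.
-/

namespace Pool.Agent.Work.MP_013ca9_lc_F

open Finset Nat

variable {d : ℕ}

/-- Time-consistency over `ℚ`. -/
def Cons (f : List (Fin d) → ℚ) : Prop := ∀ x, f x = ∑ a, f (x ++ [a])

/-- Sum of `f` over all extensions by `k` symbols. -/
def marg (f : List (Fin d) → ℚ) : ℕ → List (Fin d) → ℚ
  | 0, x => f x
  | k + 1, x => ∑ a, marg f k (x ++ [a])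

theorem marg_eq (f : List (Fin d) → ℚ) (k : ℕ) (x : List (Fin d)) :
    marg f k x = ∑ y : Fin k → Fin d, f (x ++ List.ofFn y) := by
  induction k generalizing x with
  | zero => simp [marg]
  | succ k ih =>
    simp only [marg, ih]
    rw [← (Fin.consEquiv (fun _ : Fin (k + 1) => Fin d)).sum_comp, Fintype.sum_prod_type]
    refine Finset.sum_congr rfl fun a _ => Finset.sum_congr rfl fun y _ => ?_
    simp [Fin.consEquiv, List.ofFn_succ]

theorem marg_of_cons {f : List (Fin d) → ℚ} (hf : Cons f) (k : ℕ) (x : List (Fin d)) :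
    marg f k x = f x := by
  induction k generalizing x with
  | zero => rfl
  | succ k ih =>
    simp only [marg, ih]
    exact (hf x).symm

theorem q_pos (x : List (Fin d)) : 0 < q x := by
  unfold q
  have h1 : (0 : ℚ) < (Nat.multinomial univ fun i => x.count i : ℕ) := by
    exact_mod_cast Nat.multinomial_pos _ _
  have h2 : (0 : ℚ) < (Nat.multinomial (range (x.length + 1)) (numOcc x) : ℕ) := by
    exact_mod_cast Nat.multinomial_pos _ _
  have h3 : (0 : ℚ) < part x.length := by exact_mod_cast part_pos _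
  positivity

/-- The total mass of `q` at length `n`. -/
def mass (d n : ℕ) : ℚ := ∑ y : Fin n → Fin d, q (List.ofFn y)

theorem qNorm_eq (x : List (Fin d)) : qNorm x = q x / mass d x.length := rfl

theorem mass_pos (hd : 0 < d) (n : ℕ) : 0 < mass d n :=
  Finset.sum_pos (fun y _ => q_pos _) ⟨fun _ => ⟨0, hd⟩, mem_univ _⟩

theorem mass_le_one (n : ℕ) : mass d n ≤ 1 := sum_q_le_one

theorem qNorm_pos (hd : 0 < d) (x : List (Fin d)) : 0 < qNorm x := by
  rw [qNorm_eq]
  exact div_pos (q_pos x) (mass_pos hd _)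

theorem q_le_qNorm (hd : 0 < d) (x : List (Fin d)) : q x ≤ qNorm x := by
  rw [qNorm_eq, le_div_iff₀ (mass_pos hd _)]
  have := mass_le_one (d := d) x.length
  nlinarith [q_pos x]

/-- The marginal of the normalized estimator of length `s` at `x`, extended uniformly to strings
longer than `s`. -/
def mg (s : ℕ) (x : List (Fin d)) : ℚ :=
  if x.length ≤ s then marg qNorm (s - x.length) x
  else qNorm (x.take s) * ((d : ℚ)⁻¹) ^ (x.length - s)

theorem mg_of_ge {s : ℕ} {x : List (Fin d)} (h : s ≤ x.length) :
    mg s x = qNorm (x.take s) * ((d : ℚ)⁻¹) ^ (x.length - s) := by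
  unfold mg
  split_ifs with h'
  · have : s = x.length := le_antisymm h h'
    subst this
    simp [marg]
  · rfl

theorem mg_cons (hd : 0 < d) (s : ℕ) : Cons (mg (d := d) s) := by
  intro x
  rcases lt_or_ge x.length s with h | h
  · have h1 : x.length + 1 ≤ s := h
    have e : s - x.length = (s - (x.length + 1)) + 1 := by omega
    unfold mg
    simp only [List.length_append, List.length_singleton, if_pos h.le, if_pos h1]
    rw [e]
    rfl
  · have hd' : (d : ℚ) ≠ 0 := by exact_mod_cast hd.ne'
    rw [mg_of_ge h]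
    have : ∀ a : Fin d, mg s (x ++ [a]) =
        qNorm (x.take s) * ((d : ℚ)⁻¹) ^ (x.length - s) * (d : ℚ)⁻¹ := by
      intro a
      rw [mg_of_ge (by simp; omega), List.take_append_of_le_length h, List.length_append,
        List.length_singleton, show x.length + 1 - s = (x.length - s) + 1 by omega, pow_succ]
      ring
    simp only [this, Finset.sum_const, Finset.card_univ, Fintype.card_fin, nsmul_eq_mul]
    field_simp

theorem marg_nonneg (hd : 0 < d) (k : ℕ) (x : List (Fin d)) : 0 ≤ marg qNorm k x := by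
  induction k generalizing x with
  | zero => exact (qNorm_pos hd x).le
  | succ k ih => exact Finset.sum_nonneg fun a _ => ih _

theorem mg_nonneg (hd : 0 < d) (s : ℕ) (x : List (Fin d)) : 0 ≤ mg s x := by
  unfold mg
  split_ifs
  · exact marg_nonneg hd _ _
  · have := (qNorm_pos hd (x.take s)).le
    positivity

theorem mg_self (x : List (Fin d)) : mg x.length x = qNorm x := by
  rw [mg_of_ge le_rfl]
  simp

theorem mg_nil (hd : 0 < d) (s : ℕ) : mg s ([] : List (Fin d)) = 1 := by
  unfold mg
  rw [if_pos (by simp), marg_eq]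
  simp only [List.length_nil, Nat.sub_zero, List.nil_append, qNorm_eq, List.length_ofFn]
  rw [← Finset.sum_div]
  exact div_self (mass_pos hd s).ne'

/-- Laplace's estimator. -/
def lap (x : List (Fin d)) : ℚ :=
  ((∏ i, (x.count i)! : ℕ) : ℚ) * ((d - 1)! : ℕ) / ((x.length + d - 1)! : ℕ)

theorem lap_cons (hd : 0 < d) : Cons (lap (d := d)) := by
  intro x
  obtain ⟨e, rfl⟩ : ∃ e, d = e + 1 := ⟨d - 1, by omega⟩
  have h1 : ∀ a : Fin (e + 1), (∏ i, ((x ++ [a]).count i)!) =
      (x.count a + 1) * ∏ i, (x.count i)! := by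
    intro a
    rw [← Finset.mul_prod_erase univ (fun i => ((x ++ [a]).count i)!) (mem_univ a),
      ← Finset.mul_prod_erase univ (fun i => (x.count i)!) (mem_univ a), ← mul_assoc]
    congr 1
    · rw [List.count_append, List.count_singleton_self, Nat.factorial_succ]
    · refine Finset.prod_congr rfl fun i hi => ?_
      rw [List.count_append, List.count_singleton, if_neg, add_zero]
      have := (mem_erase.1 hi).1
      simp [Ne.symm this]
  have h2 : ∑ a : Fin (e + 1), x.count a = x.length := by
    rw [← List.sum_toFinset_count_eq_length x]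
    refine (Finset.sum_subset (subset_univ _) fun a _ ha => ?_).symm
    rw [List.mem_toFinset] at ha
    exact List.count_eq_zero_of_not_mem ha
  have h3 : ∑ a : Fin (e + 1), ((x.count a : ℚ) + 1) = x.length + (e + 1) := by
    rw [Finset.sum_add_distrib]
    have : ((∑ a : Fin (e + 1), x.count a : ℕ) : ℚ) = x.length := by rw [h2]
    push_cast at this
    rw [this]
    simp
  have h4 : ((x.length + 1 + (e + 1) - 1)! : ℕ) = (x.length + (e + 1)) * (x.length + (e + 1) - 1)! := by
    rw [show x.length + 1 + (e + 1) - 1 = (x.length + e) + 1 by omega, Nat.factorial_succ]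
    rfl
  unfold lap
  simp only [List.length_append, List.length_singleton, h1, h4]
  push_cast
  have h5 : ((x.length : ℚ) + (e + 1)) ≠ 0 := by positivity
  have h6 : (((x.length + (e + 1) - 1)! : ℕ) : ℚ) ≠ 0 := by
    exact_mod_cast (Nat.factorial_pos _).ne'
  rw [← Finset.sum_div, ← Finset.sum_mul, ← Finset.sum_mul, h3]
  field_simp

theorem lap_nil : lap ([] : List (Fin d)) = 1 := by
  unfold lap
  have : (((d - 1)! : ℕ) : ℚ) ≠ 0 := by exact_mod_cast (Nat.factorial_pos _).ne'
  simp [div_self this]

theorem lap_pos (x : List (Fin d)) : 0 < lap x := by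
  unfold lap
  have h1 : (0 : ℚ) < (∏ i, (x.count i)! : ℕ) := by
    exact_mod_cast Finset.prod_pos fun i _ => Nat.factorial_pos _
  have h2 : (0 : ℚ) < ((d - 1)! : ℕ) := by exact_mod_cast Nat.factorial_pos _
  have h3 : (0 : ℚ) < ((x.length + d - 1)! : ℕ) := by exact_mod_cast Nat.factorial_pos _
  positivity

theorem sum_count (x : List (Fin d)) : ∑ a : Fin d, x.count a = x.length := by
  rw [← List.sum_toFinset_count_eq_length x]
  refine (Finset.sum_subset (subset_univ _) fun a _ ha => ?_).symm
  rw [List.mem_toFinset] at ha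
  exact List.count_eq_zero_of_not_mem ha

/-- Laplace's estimator in terms of the multinomial coefficient. -/
theorem lap_eq (x : List (Fin d)) : lap x = (Nat.multinomial univ fun i => x.count i : ℚ)⁻¹ *
    (((x.length)! : ℕ) * ((d - 1)! : ℕ) / ((x.length + d - 1)! : ℕ)) := by
  have hm : (0 : ℚ) < (Nat.multinomial univ fun i => x.count i : ℕ) := by
    exact_mod_cast Nat.multinomial_pos _ _
  have hspec : ((∏ i, (x.count i)! : ℕ) : ℚ) * (Nat.multinomial univ fun i => x.count i : ℕ) =
      ((x.length)! : ℕ) := by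
    have := Nat.multinomial_spec (s := (univ : Finset (Fin d))) (f := fun i => x.count i)
    rw [sum_count] at this
    exact_mod_cast this
  unfold lap
  rw [← hspec]
  field_simp

theorem sum_numOcc (x : List (Fin d)) : ∑ r ∈ range (x.length + 1), numOcc x r = d := by
  unfold numOcc
  have := Finset.card_eq_sum_card_fiberwise (f := fun i : Fin d => x.count i)
    (s := univ) (t := range (x.length + 1))
    (by
      intro i _
      simp only [coe_range, Set.mem_Iio]
      exact Nat.lt_succ_of_le List.count_le_length)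
  simpa using this.symm

theorem multinomial_numOcc_le (x : List (Fin d)) :
    Nat.multinomial (range (x.length + 1)) (numOcc x) ≤ d ! := by
  have h := Nat.multinomial_spec (s := range (x.length + 1)) (f := numOcc x)
  rw [sum_numOcc] at h
  rw [← h]
  exact Nat.le_mul_of_pos_left _ (Finset.prod_pos fun i _ => Nat.factorial_pos _)

/-- Comparison of the normalized estimator with Laplace's estimator. -/
theorem qNorm_le_lap (hd : 0 < d) (x : List (Fin d)) : qNorm x ≤ (d ! : ℕ) * lap x := by
  have hdf : (0 : ℚ) < (d ! : ℕ) := by exact_mod_cast Nat.factorial_pos _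
  -- the mass from below
  have hpart : (0 : ℚ) < part x.length := by exact_mod_cast part_pos _
  set K : ℚ := ((x.length)! : ℕ) * ((d - 1)! : ℕ) / ((x.length + d - 1)! : ℕ) with hK
  have hKpos : 0 < K := by
    have h1 : (0 : ℚ) < ((x.length)! : ℕ) := by exact_mod_cast Nat.factorial_pos _
    have h2 : (0 : ℚ) < ((d - 1)! : ℕ) := by exact_mod_cast Nat.factorial_pos _
    have h3 : (0 : ℚ) < ((x.length + d - 1)! : ℕ) := by exact_mod_cast Nat.factorial_pos _
    positivity
  have hlow : ∀ y : List (Fin d), y.length = x.length →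
      lap y * ((d ! : ℕ) : ℚ)⁻¹ * (part x.length : ℚ)⁻¹ / K ≤ q y := by
    intro y hy
    have hm : (0 : ℚ) < (Nat.multinomial univ fun i => y.count i : ℕ) := by
      exact_mod_cast Nat.multinomial_pos _ _
    have hb : (0 : ℚ) < (Nat.multinomial (range (y.length + 1)) (numOcc y) : ℕ) := by
      exact_mod_cast Nat.multinomial_pos _ _
    have hb' : ((Nat.multinomial (range (y.length + 1)) (numOcc y) : ℕ) : ℚ) ≤ (d ! : ℕ) := by
      exact_mod_cast multinomial_numOcc_le y
    have hinv : ((d ! : ℕ) : ℚ)⁻¹ ≤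
        ((Nat.multinomial (range (y.length + 1)) (numOcc y) : ℕ) : ℚ)⁻¹ := inv_anti₀ hb hb'
    rw [lap_eq, hy, ← hK]
    unfold q
    rw [hy] at hinv ⊢
    have h0 : (0 : ℚ) ≤ (Nat.multinomial univ fun i => y.count i : ℚ)⁻¹ := by positivity
    have h0' : (0 : ℚ) ≤ (part x.length : ℚ)⁻¹ := by positivity
    calc _ = (Nat.multinomial univ fun i => y.count i : ℚ)⁻¹ * ((d ! : ℕ) : ℚ)⁻¹ *
          (part x.length : ℚ)⁻¹ := by field_simp
      _ ≤ _ := by gcongr
  have hmass : ((d ! : ℕ) : ℚ)⁻¹ * (part x.length : ℚ)⁻¹ / K ≤ mass d x.length := by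
    have h1 : ∑ y : Fin x.length → Fin d, lap (List.ofFn y) = 1 := by
      have h2 := marg_eq lap x.length ([] : List (Fin d))
      rw [marg_of_cons (lap_cons hd), lap_nil] at h2
      simpa using h2.symm
    have h3 : ∑ y : Fin x.length → Fin d, lap (List.ofFn y) *
        (((d ! : ℕ) : ℚ)⁻¹ * (part x.length : ℚ)⁻¹ / K) ≤ mass d x.length := by
      refine Finset.sum_le_sum fun y _ => ?_
      have := hlow (List.ofFn y) (List.length_ofFn)
      refine le_trans (le_of_eq ?_) this
      ring
    rw [← Finset.sum_mul, h1, one_mul] at h3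
    exact h3
  have hq : q x ≤ (Nat.multinomial univ fun i => x.count i : ℚ)⁻¹ * (part x.length : ℚ)⁻¹ := by
    unfold q
    have hb : (1 : ℚ) ≤ (Nat.multinomial (range (x.length + 1)) (numOcc x) : ℕ) := by
      exact_mod_cast Nat.multinomial_pos _ _
    have : ((Nat.multinomial (range (x.length + 1)) (numOcc x) : ℕ) : ℚ)⁻¹ ≤ 1 :=
      inv_le_one_of_one_le₀ hb
    have h0 : (0 : ℚ) ≤ (Nat.multinomial univ fun i => x.count i : ℚ)⁻¹ := by positivity
    have h0' : (0 : ℚ) ≤ (part x.length : ℚ)⁻¹ := by positivity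
    calc _ ≤ (Nat.multinomial univ fun i => x.count i : ℚ)⁻¹ * 1 * (part x.length : ℚ)⁻¹ := by
          gcongr
      _ = _ := by rw [mul_one]
  rw [qNorm_eq, div_le_iff₀ (mass_pos hd _)]
  refine hq.trans ?_
  have hl := lap_pos x
  calc (Nat.multinomial univ fun i => x.count i : ℚ)⁻¹ * (part x.length : ℚ)⁻¹
      = (d ! : ℕ) * lap x * (((d ! : ℕ) : ℚ)⁻¹ * (part x.length : ℚ)⁻¹ / K) := by
        rw [lap_eq, ← hK]
        field_simp
    _ ≤ _ := by gcongr

end Pool.Agent.Work.MP_013ca9_lc_F
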